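import Mathlib

/-!
# MP_26672a: minimal deletion shadow of two-level symbol-count families of words

For `r = s = 3`, `n = 4`, `k = 0`, `ℓ = 1` the family `F_{3,0,1}` has 32 words and deletion
shadow of size 17, while `[2] × [2] × ([3]² ∖ {33})` has 32 words and deletion shadow
`[2] × ([3]² ∖ {33})` of size 16.
-/

namespace Pool.Agent.Results.MP_26672a_co.SmallerShadow

/-- Words of length `n` over the alphabet `[r]`; the letter `x ∈ {1, …, r}` is `x - 1 : Fin r`. -/
abbrev Word (r n : ℕ) := Fin n → Fin r

/-- The word obtained from `w` by deleting the letter at position `i`. -/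
def del {r n : ℕ} (w : Word r (n + 1)) (i : Fin (n + 1)) : Word r n := fun j => w (i.succAbove j)

/-- The deletion shadow of a family of words. -/
def shadow {r n : ℕ} (F : Finset (Word r (n + 1))) : Finset (Word r n) :=
  Finset.univ.filter fun v => ∃ w ∈ F, ∃ i, v = del w i

/-- `F` has minimal deletion shadow given its size. -/
def MinimalShadow {r n : ℕ} (F : Finset (Word r (n + 1))) : Prop :=
  ∀ G : Finset (Word r (n + 1)), G.card = F.card → (shadow F).card ≤ (shadow G).card

/-- `count x w = c_x(w)`: the number of positions where the letter is `x ∈ {1, …, r}`. -/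
def count {r n : ℕ} (x : ℕ) (w : Word r n) : ℕ :=
  (Finset.univ.filter fun i => (w i).val + 1 = x).card

/-- The family `F_{s,k,ℓ}` of words of length `n + 1`: the words over the letters `1, …, s` with
`c_s ≤ k`, or with `c_s = k + 1` and `c_{s-1} ≤ ℓ`. -/
def family (r n s k l : ℕ) : Finset (Word r (n + 1)) :=
  Finset.univ.filter fun w => (∀ i, (w i).val + 1 ≤ s) ∧
    (count s w ≤ k ∨ (count s w = k + 1 ∧ count (s - 1) w ≤ l))

/-- the better family `[2] × [2] × ([3]² ∖ {33})` -/
def better : Finset (Word 3 4) :=
  Finset.univ.filter fun w => w 0 ≠ 2 ∧ w 1 ≠ 2 ∧ ¬ (w 2 = 2 ∧ w 3 = 2)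

theorem card_family : (family 3 3 3 0 1).card = 32 := by
  decide +kernel

theorem card_better : better.card = 32 := by
  decide +kernel

theorem card_shadow_family : (shadow (family 3 3 3 0 1)).card = 17 := by
  decide +kernel

theorem card_shadow_better : (shadow better).card = 16 := by
  decide +kernel

/-- **Q1 is false**: for `r = s = 3`, words of length `4`, `k = 0` and `ℓ = 1`, the family
`F_{3,0,1}` has 32 words and a shadow of size 17, and another family of 32 words has a shadow
of size 16.  (Words have length `n + 1` in this file.) -/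
theorem result :
    (family 3 3 3 0 1).card = 32 ∧ (shadow (family 3 3 3 0 1)).card = 17 ∧
    (∃ G : Finset (Word 3 4), G.card = 32 ∧ (shadow G).card = 16) ∧
    ¬ ∀ r n s k l : ℕ, 2 ≤ r → 2 ≤ n + 1 → 2 ≤ s → s ≤ r → k ≤ n → l + k ≤ n →
      MinimalShadow (family r n s k l) := by
  refine ⟨card_family, card_shadow_family, ⟨better, card_better, card_shadow_better⟩,
    fun H => ?_⟩
  have := H 3 3 3 0 1 (by norm_num) (by norm_num) (by norm_num) le_rfl (by norm_num)
    (by norm_num) better (by rw [card_better, card_family])
  rw [card_shadow_family, card_shadow_better] at this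
  omega

end Pool.Agent.Results.MP_26672a_co.SmallerShadow
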